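import Pool.Agent.H173.PRMain

/-!
# The bounded prefix palindromic length functions

For an infinite word `u` let `PPL u n` be the least number of palindromes whose product is the
prefix of length `n` of `u`. We characterise the bounded functions `f` which are equal to `PPL u`
for an infinite word `u` over a finite alphabet.

* Such a function is ultimately periodic.
* If `f ≤ K` and `f (n + P) = f n` for all `n ≥ M`, where `M, P ≥ 1`, then `f` is realisable if and
  only if there is a finite word of length `N = M + P + (K (2 M + 3 M P + 1) + M) P` whose prefixes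
  of length `n ≤ N` have palindromic length `f n`; the `i`-th letter (`i = 0, 1, …`) of this word
  can be taken from `{0, …, i}`. This is a finite check.
* Each word `u` with `PPL u = f` is periodic from a position less than `M` on, with a period at most
  `M P`.

Idea of the proof. If `PPL u` is bounded, `u` is ultimately periodic: this is the palindromic length
conjecture, which was proved in Lean for `S11809` (`Pool.Agent.H173.PLMain`). A long palindrome in
an ultimately periodic word can be made longer or shorter by a period; so
`PPL u (n + p) ≤ PPL u n` for large `n`, and `PPL u` is ultimately periodic. Conversely let `f` be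
ultimately periodic, let `k + 1` be the least value of `f` on `[M, ∞)`, attained at `n₀ + j P` for
all `j`. If these prefixes are products of `k + 1` palindromes, the last palindrome starts before
position `M`, so two of any `M + 1` consecutive ones start at the same position `s`, and the word
has a period at most `M P` from `s` on up to the end of the longer one. The periodic continuation of
the word has the prefix palindromic length `f`, again by changing long palindromes by one period.
-/

set_option autoImplicit false

namespace Pool.Agent.Results.MP_9cc368_co.BoundedFunctions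

/-- The letters of `u` at the positions `m, m + 1, …, n - 1` form a palindrome. -/
def PalBlock {α : Type} (u : ℕ → α) (m n : ℕ) : Prop :=
  ∀ i, m ≤ i → i < n → u i = u (m + n - 1 - i)

/-- The prefix `u 0, …, u (n - 1)` of length `n` is a product of `k` (nonempty) palindromes. -/
def ProdPal {α : Type} (u : ℕ → α) : ℕ → ℕ → Prop
  | 0, n => n = 0
  | k + 1, n => ∃ m, m < n ∧ ProdPal u k m ∧ PalBlock u m n

/-- The prefix palindromic length: the least number of palindromes whose product is the prefix of
length `n`. -/
noncomputable def PPL {α : Type} (u : ℕ → α) (n : ℕ) : ℕ := sInf {k | ProdPal u k n}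

/-- `f` is the prefix palindromic length function of an infinite word over a finite alphabet. -/
def Realisable (f : ℕ → ℕ) : Prop := ∃ (k : ℕ) (u : ℕ → Fin k), ∀ n, PPL u n = f n

/-- The length up to which it has to be checked whether `f` is realisable. -/
def checkLength (K M P : ℕ) : ℕ := M + P + (K * (2 * M + 3 * (M * P) + 1) + M) * P

open Pool.Agent.H173.PR

lemma prodPal_iff {α : Type} (u : ℕ → α) : ∀ k n, ProdPal u k n ↔ Fact u k n := by
  intro k
  induction k with
  | zero => intro n; exact Iff.rfl
  | succ k ih =>
    intro n
    exact exists_congr fun m => and_congr Iff.rfl (and_congr (ih m) Iff.rfl)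

lemma PPL_eq {α : Type} (u : ℕ → α) (n : ℕ) : PPL u n = ppl u n := by
  unfold PPL ppl
  congr 1
  ext k
  exact prodPal_iff u k n

/-- Characterisation of the bounded prefix palindromic length functions. Let `f` be a function with
values at most `K`. If `f` is realisable, it is ultimately periodic. If `f (n + P) = f n` for all
`n ≥ M`, where `M, P ≥ 1`, then (a) `f` is realisable if and only if `PPL w n = f n` for all
`n ≤ checkLength K M P`, for some word `w` with letters `w i ≤ i`; (b) each word `u` (over any
alphabet) with `PPL u = f` satisfies `u (i + q) = u i` for all `i ≥ s`, for some `s < M` and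
`1 ≤ q ≤ M P`. -/
theorem result (f : ℕ → ℕ) (K : ℕ) (hK : ∀ n, f n ≤ K) :
    (Realisable f → ∃ M P, 1 ≤ M ∧ 1 ≤ P ∧ ∀ n, M ≤ n → f (n + P) = f n) ∧
    ∀ M P, 1 ≤ M → 1 ≤ P → (∀ n, M ≤ n → f (n + P) = f n) →
      (Realisable f ↔ ∃ w : ℕ → ℕ, (∀ i, w i ≤ i) ∧ ∀ n, n ≤ checkLength K M P → PPL w n = f n) ∧
      ∀ (α : Type) (u : ℕ → α), (∀ n, PPL u n = f n) →
        ∃ s q, s < M ∧ 1 ≤ q ∧ q ≤ M * P ∧ ∀ i, s ≤ i → u (i + q) = u i := by
  refine ⟨?_, fun M P hM hP hf => ⟨⟨?_, ?_⟩, ?_⟩⟩
  · rintro ⟨k, u, hu⟩
    obtain ⟨p, N, hp, hN, _, h⟩ := ppl_ult (u := u) (K := K) (fun n => by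
      rw [← PPL_eq, hu]; exact hK n)
    refine ⟨N, p, hN, hp, fun n hn => ?_⟩
    rw [← hu, ← hu, PPL_eq, PPL_eq]
    exact h n hn
  · rintro ⟨k, u, hu⟩
    have hmem : ∀ i, u (sInf {j | u j = u i}) = u i := fun i =>
      Nat.sInf_mem (s := {j | u j = u i}) ⟨i, rfl⟩
    refine ⟨fun i => sInf {j | u j = u i}, fun i => Nat.sInf_le rfl, fun n _ => ?_⟩
    rw [← hu n, PPL_eq, PPL_eq]
    apply ppl_congr
    intro i j _ _
    constructor
    · intro h
      have h1 := congrArg u h
      rw [hmem, hmem] at h1
      exact h1
    · intro h
      simp only [h]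
  · rintro ⟨w, hw, hwf⟩
    obtain ⟨s, q, _, hq, _, hv⟩ := finite_check hM hP hK hf (w := w)
      (fun n hn => by rw [← PPL_eq]; exact hwf n hn)
    have hlt : ∀ i, w (if i < s then i else s + (i - s) % q) < s + q := by
      intro i
      refine lt_of_le_of_lt (hw _) ?_
      split_ifs with h
      · omega
      · have := Nat.mod_lt (i - s) (by omega : 0 < q)
        omega
    refine ⟨s + q, fun i => ⟨w (if i < s then i else s + (i - s) % q), hlt i⟩, fun n => ?_⟩
    rw [PPL_eq, ← hv n]
    apply ppl_congr
    intro i j _ _
    exact Fin.ext_iff
  · intro α u hu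
    exact all_period hM hP hf (w := u) (fun n => by rw [← PPL_eq]; exact hu n)

end Pool.Agent.Results.MP_9cc368_co.BoundedFunctions
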